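import Pool.Agent.Y211.PY.Stm

/-!
# The global form of the lattice lemma, from the local one (helper165, job T0 of helper211)
-/

set_option autoImplicit false

open scoped Matrix

universe u

namespace Pool.Agent.Y165.PY.T0

open Pool.Agent.Y211.PY

section

variable {R F : Type u} [CommRing R] [IsDomain R] [Field F] [Algebra R F] [IsFractionRing R F]
  (m : Ideal R) [hm : m.IsPrime]

theorem smul_mem_bot {r : R} {x : F} (hx : x ∈ (⊥ : Subalgebra R F)) :
    r • x ∈ (⊥ : Subalgebra R F) := Subalgebra.smul_mem _ hx r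

/-- the local ring at `m`, inside the field of fractions -/
noncomputable abbrev AA (F : Type u) [Field F] [Algebra R F] [IsFractionRing R F]
    (m : Ideal R) [hm : m.IsPrime] : Subalgebra R F :=
  Localization.subalgebra.ofField F m.primeCompl m.primeCompl_le_nonZeroDivisors

theorem ne_of_notMem {s : R} (hs : s ∉ m) : algebraMap R F s ≠ 0 := by
  intro h
  apply hs
  have : s = 0 := (IsFractionRing.injective R F) (by rw [h, map_zero])
  rw [this]; exact zero_mem _

theorem mem_AA_iff (x : F) : x ∈ AA F m ↔ ∃ s : R, s ∉ m ∧ s • x ∈ (⊥ : Subalgebra R F) := by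
  constructor
  · rintro ⟨a, s, hs, rfl⟩
    refine ⟨s, hs, ?_⟩
    rw [Algebra.mem_bot]
    refine ⟨a, ?_⟩
    rw [Algebra.smul_def]
    have := ne_of_notMem (F := F) m hs
    field_simp
  · rintro ⟨s, hs, h⟩
    rw [Algebra.mem_bot] at h
    obtain ⟨a, ha⟩ := h
    refine ⟨a, s, hs, ?_⟩
    rw [Algebra.smul_def] at ha
    have := ne_of_notMem (F := F) m hs
    rw [ha]
    field_simp

theorem mem_bot_AA (x : F) : x ∈ (⊥ : Subalgebra (AA F m) F) ↔ x ∈ AA F m := by
  rw [Algebra.mem_bot]
  constructor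
  · rintro ⟨a, rfl⟩
    exact a.2
  · intro h
    exact ⟨⟨x, h⟩, rfl⟩

/-- the localisation of a lattice -/
noncomputable def MA {k : ℕ} (M : Submodule R (Fin k → F)) : Submodule (AA F m) (Fin k → F) where
  carrier := {x | ∃ s : R, s ∉ m ∧ s • x ∈ M}
  add_mem' := by
    rintro x y ⟨s, hs, hx⟩ ⟨t, ht, hy⟩
    refine ⟨s * t, hm.mul_notMem hs ht, ?_⟩
    rw [smul_add]
    apply M.add_mem
    · rw [mul_comm, mul_smul]; exact M.smul_mem _ hx
    · rw [mul_smul]; exact M.smul_mem _ hy
  zero_mem' := ⟨1, fun h => hm.ne_top ((Ideal.eq_top_iff_one m).mpr h), by simp⟩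
  smul_mem' := by
    rintro ⟨a, ha⟩ x ⟨s, hs, hx⟩
    obtain ⟨t, ht, h⟩ := (mem_AA_iff m a).mp ha
    rw [Algebra.mem_bot] at h
    obtain ⟨r, hr⟩ := h
    refine ⟨s * t, hm.mul_notMem hs ht, ?_⟩
    have e : (s * t) • ((⟨a, ha⟩ : AA F m) • x) = r • (s • x) := by
      funext i
      simp only [Pi.smul_apply]
      have h1 : ((⟨a, ha⟩ : AA F m) • x i) = a * x i := rfl
      rw [h1]
      simp only [Algebra.smul_def, map_mul] at hr ⊢
      rw [hr]
      ring
    rw [e]
    exact M.smul_mem _ hx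

theorem key {k : ℕ} (N : Submodule R (Fin k → F)) (hN : N.FG) (x : Fin k → F)
    (hx : ∀ y ∈ N, x ⬝ᵥ y ∈ AA F m) : ∃ u : R, u ∉ m ∧ u • x ∈ dual N := by
  classical
  obtain ⟨S, hS⟩ := hN
  have h1 : ∀ y : Fin k → F, ∃ u : R, u ∉ m ∧ (y ∈ S → u • (x ⬝ᵥ y) ∈ (⊥ : Subalgebra R F)) := by
    intro y
    by_cases hy : y ∈ S
    · have := hx y (hS ▸ Submodule.subset_span hy)
      obtain ⟨u, hu, h⟩ := (mem_AA_iff m _).mp this
      exact ⟨u, hu, fun _ => h⟩
    · exact ⟨1, fun h => hm.ne_top ((Ideal.eq_top_iff_one m).mpr h), fun h => absurd h hy⟩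
  choose f hf hf2 using h1
  refine ⟨∏ y ∈ S, f y, ?_, ?_⟩
  · intro h
    rw [hm.prod_mem_iff] at h
    obtain ⟨y, _, hy⟩ := h
    exact hf y hy
  · intro y hy
    rw [smul_dotProduct]
    rw [← hS] at hy
    induction hy using Submodule.span_induction with
    | mem y hy =>
      obtain ⟨c, hc⟩ := Finset.dvd_prod_of_mem f hy
      rw [hc, mul_comm, mul_smul]
      exact smul_mem_bot (hf2 y hy)
    | zero => rw [dotProduct_zero, smul_zero]; exact zero_mem _
    | add y z _ _ hy hz => rw [dotProduct_add, smul_add]; exact add_mem hy hz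
    | smul a y _ hy =>
      rw [dotProduct_smul, smul_comm]
      exact smul_mem_bot hy

theorem le_MA {k : ℕ} (M : Submodule R (Fin k → F)) (x : Fin k → F) (hx : x ∈ M) : x ∈ MA m M :=
  ⟨1, fun h => hm.ne_top ((Ideal.eq_top_iff_one m).mpr h), by simpa using hx⟩

theorem dual_MA {k : ℕ} (M : Submodule R (Fin k → F)) (hM : M.FG) (hd : dual M = M) :
    dual (MA m M) = MA m M := by
  apply le_antisymm
  · intro x hx
    obtain ⟨u, hu, h⟩ := key m M hM x (fun y hy => (mem_bot_AA m _).mp (hx y (le_MA m M y hy)))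
    rw [hd] at h
    exact ⟨u, hu, h⟩
  · rintro x ⟨s, hs, hx⟩ y ⟨t, ht, hy⟩
    rw [mem_bot_AA, mem_AA_iff]
    refine ⟨s * t, hm.mul_notMem hs ht, ?_⟩
    rw [← hd] at hx
    have := hx _ hy
    rw [smul_dotProduct, dotProduct_smul, ← mul_smul] at this
    exact this

theorem mem_lat_AA {k : ℕ} (x : Fin k → F) : x ∈ lat (AA F m) F k ↔ ∀ i, x i ∈ AA F m := by
  constructor
  · intro h i
    exact (mem_bot_AA m _).mp (h i)
  · intro h i
    exact (mem_bot_AA m _).mpr (h i)

theorem smul_inv_aux {s : R} (hs : s ∉ m) : (algebraMap R F s)⁻¹ ∈ AA F m := by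
  rw [mem_AA_iff]
  refine ⟨s, hs, ?_⟩
  rw [Algebra.smul_def, mul_inv_cancel₀ (ne_of_notMem m hs)]
  exact one_mem _

theorem sup_MA {k : ℕ} (M : Submodule R (Fin k → F)) (hMf : (M ⊓ lat R F k).FG)
    (hD : dual (M ⊓ lat R F k) ≤ M ⊔ lat R F k) :
    dual (MA m M ⊓ lat (AA F m) F k) ≤ MA m M ⊔ lat (AA F m) F k := by
  intro x hx
  have h1 : ∀ y ∈ M ⊓ lat R F k, x ⬝ᵥ y ∈ AA F m := by
    intro y hy
    rw [← mem_bot_AA]
    apply hx
    refine ⟨le_MA m M y hy.1, ?_⟩
    rw [SetLike.mem_coe, mem_lat_AA]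
    intro i
    obtain ⟨a, ha⟩ := Algebra.mem_bot.mp (hy.2 i)
    rw [← ha]
    exact (AA F m).algebraMap_mem a
  obtain ⟨u, hu, h⟩ := key m _ hMf x h1
  have h2 := hD h
  rw [Submodule.mem_sup] at h2
  obtain ⟨a, ha, b, hb, hab⟩ := h2
  have hu0 := ne_of_notMem (F := F) m hu
  set v : AA F m := ⟨(algebraMap R F u)⁻¹, smul_inv_aux m hu⟩ with hv
  have e : x = v • a + v • b := by
    rw [← smul_add, hab]
    funext i
    simp only [Pi.smul_apply]
    have h1 : (v • (u • x i)) = (algebraMap R F u)⁻¹ * (u • x i) := rfl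
    rw [h1, Algebra.smul_def]
    field_simp
  rw [e]
  refine Submodule.add_mem_sup ?_ ?_
  · exact Submodule.smul_mem _ _ (le_MA m M a ha)
  · apply Submodule.smul_mem
    rw [mem_lat_AA]
    intro i
    obtain ⟨a, ha⟩ := Algebra.mem_bot.mp (hb i)
    rw [← ha]
    exact (AA F m).algebraMap_mem a

theorem bdd_MA {k : ℕ} (M : Submodule R (Fin k → F)) (h : Bdd M) : Bdd (MA m M) := by
  obtain ⟨d, hd, h⟩ := h
  refine ⟨algebraMap R (AA F m) d, ?_, ?_⟩
  · intro h0
    apply hd
    apply IsFractionRing.injective R F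
    rw [map_zero]
    exact congrArg Subtype.val h0
  · rintro x ⟨s, hs, hx⟩
    rw [mem_lat_AA]
    intro i
    rw [mem_AA_iff]
    refine ⟨s, hs, ?_⟩
    have h1 := h _ hx i
    have e : s • ((algebraMap R (AA F m) d) • x) i = (d • s • x) i := by
      simp only [Pi.smul_apply]
      rw [algebraMap_smul, smul_comm]
    rw [e]
    exact h1

end

theorem lat_fg {R F : Type u} [CommRing R] [IsDomain R] [IsNoetherianRing R] [Field F]
    [Algebra R F] [IsFractionRing R F] {k : ℕ} (M : Submodule R (Fin k → F)) (h : Bdd M) :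
    M.FG := by
  obtain ⟨d, hd, h⟩ := h
  have hL : (lat R F k).FG := by
    let φ : (Fin k → R) →ₗ[R] (Fin k → F) :=
      { toFun := fun x i => algebraMap R F (x i)
        map_add' := fun x y => by funext i; simp
        map_smul' := fun r x => by funext i; simp [Algebra.smul_def] }
    have e : lat R F k = LinearMap.range φ := by
      ext x
      constructor
      · intro hx
        choose y hy using fun i => Algebra.mem_bot.mp (hx i)
        exact ⟨y, funext hy⟩
      · rintro ⟨y, rfl⟩ i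
        exact Algebra.mem_bot.mpr ⟨y i, rfl⟩
    rw [e]
    rw [LinearMap.range_eq_map]
    exact Submodule.FG.map φ (IsNoetherian.noetherian ⊤)
  haveI : IsNoetherian R (lat R F k) := isNoetherian_of_fg_of_noetherian _ hL
  let ψ : M →ₗ[R] lat R F k :=
    { toFun := fun x => ⟨d • x.1, h x.1 x.2⟩
      map_add' := fun x y => by ext1; simp
      map_smul' := fun r x => by
        ext1
        exact smul_comm d r x.1 }
  have hinj : Function.Injective ψ := by
    intro x y hxy
    have h1 : d • x.1 = d • y.1 := congrArg Subtype.val hxy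
    apply Subtype.ext
    funext i
    have h2 := congrFun h1 i
    simp only [Pi.smul_apply, Algebra.smul_def] at h2
    have hd0 : algebraMap R F d ≠ 0 := fun h => hd (IsFractionRing.injective R F (by rw [h, map_zero]))
    exact mul_left_cancel₀ hd0 h2
  haveI : IsNoetherian R M := isNoetherian_of_injective ψ hinj
  rw [← Submodule.fg_top]
  exact IsNoetherian.noetherian _

theorem t (h : S_T0L.{u}) : S_T0.{u} := by
  intro R F _ _ _ _ _ _ hReg hRl k M hB hd hD x hx i
  have hMfg := lat_fg M hB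
  have hB2 : Bdd (M ⊓ lat R F k) := by
    obtain ⟨d, hd0, h1⟩ := hB
    exact ⟨d, hd0, fun y hy => h1 y hy.1⟩
  have hMfg2 := lat_fg _ hB2
  have key2 : ∀ (m : Ideal R), m.IsMaximal → ∃ s : R, s ∉ m ∧ s • x i ∈ (⊥ : Subalgebra R F) := by
    intro m hm
    haveI := hm.isPrime
    obtain ⟨hr1, hr2⟩ := hReg m
    let e : Localization.AtPrime m ≃ₐ[R] AA F m :=
      IsLocalization.algEquiv m.primeCompl _ _
    haveI : IsRegularLocalRing (AA F m) := IsRegularLocalRing.of_ringEquiv e.toRingEquiv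
    have hdim : ringKrullDim (AA F m) = 2 := by
      rw [← ringKrullDim_eq_of_ringEquiv e.toRingEquiv, hr2]
    have hmax : ∀ r : R, algebraMap R (AA F m) r ∈ IsLocalRing.maximalIdeal (AA F m) ↔ r ∈ m :=
      fun r => IsLocalization.AtPrime.to_map_mem_maximal_iff (AA F m) m r
    have hsq : ∀ (k : ℕ) (x : Fin k → AA F m),
        ∑ i, x i ^ 2 ∈ IsLocalRing.maximalIdeal (AA F m) →
        ∀ i, x i ∈ IsLocalRing.maximalIdeal (AA F m) := by
      intro k x hx i
      obtain ⟨b, hb⟩ := IsLocalization.exist_integer_multiples_of_finite m.primeCompl x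
      choose r hr using hb
      have h1 : ∑ i, (algebraMap R (AA F m) (r i)) ^ 2 ∈ IsLocalRing.maximalIdeal (AA F m) := by
        have : ∑ i, (algebraMap R (AA F m) (r i)) ^ 2 =
            algebraMap R (AA F m) ((b : R) ^ 2) * ∑ i, x i ^ 2 := by
          rw [Finset.mul_sum]
          refine Finset.sum_congr rfl fun i _ => ?_
          rw [hr i, Algebra.smul_def, map_pow]
          ring
        rw [this]
        exact Ideal.mul_mem_left _ _ hx
      have h2 : ∑ i, (algebraMap R (AA F m) (r i)) ^ 2 = algebraMap R (AA F m) (∑ i, r i ^ 2) := by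
        simp
      rw [h2, hmax] at h1
      have h3 := hRl m hm k r h1 i
      rw [← hmax, hr i, Algebra.smul_def] at h3
      rcases (IsLocalRing.maximalIdeal.isMaximal (AA F m)).isPrime.mem_or_mem h3 with h4 | h4
      · rw [hmax] at h4
        exact absurd h4 b.2
      · exact h4
    have hM := h (AA F m) F hdim hsq k (MA m M) (bdd_MA m M hB) (dual_MA m M hMfg hd)
      (sup_MA m M hMfg2 hD) (le_MA m M x hx)
    rw [mem_lat_AA] at hM
    exact (mem_AA_iff m _).mp (hM i)
  let I : Ideal R :=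
    { carrier := {r | r • x i ∈ (⊥ : Subalgebra R F)}
      add_mem' := fun {a b} ha hb => by
        rw [Set.mem_setOf_eq] at ha hb ⊢
        rw [add_smul]; exact add_mem ha hb
      zero_mem' := by
        rw [Set.mem_setOf_eq]
        rw [zero_smul]; exact zero_mem _
      smul_mem' := fun c r hr => by
        rw [Set.mem_setOf_eq] at hr ⊢
        rw [smul_eq_mul, mul_smul]; exact smul_mem_bot hr }
  have hI : I = ⊤ := by
    by_contra hne
    obtain ⟨m, hm, hle⟩ := Ideal.exists_le_maximal I hne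
    obtain ⟨s, hs, h1⟩ := key2 m hm
    exact hs (hle h1)
  have h1 : (1 : R) ∈ I := by rw [hI]; trivial
  have h2 : (1 : R) • x i ∈ (⊥ : Subalgebra R F) := h1
  rwa [one_smul] at h2

end Pool.Agent.Y165.PY.T0
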